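import Pool.Agent.X187.CN.Disk

/-! # MP_4b815d_gt, Q1: the circumscribed radius bound fails in the cone of total angle `π` -/

namespace Pool.Agent.Results.MP_4b815d_gt.ConeDisk

open Set Filter Topology

section

variable {M : Type} [MetricSpace M]

/-- The angle opposite to the side `c` in a Euclidean triangle with sides `a`, `b`, `c`. -/
noncomputable def cmpAngle (a b c : ℝ) : ℝ := Real.arccos ((a ^ 2 + b ^ 2 - c ^ 2) / (2 * a * b))

/-- `γ` restricted to `[0,a]` is a shortest path parametrised by arc length. -/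
def IsShortest (γ : ℝ → M) (a : ℝ) : Prop :=
  ∀ s ∈ Icc 0 a, ∀ t ∈ Icc 0 a, dist (γ s) (γ t) = |s - t|

/-- `α` is the (Alexandrov) angle between the shortest paths `γ` and `η` at `γ 0 = η 0`: the limit
of the comparison angles. -/
def HasAngle (γ η : ℝ → M) (α : ℝ) : Prop :=
  Tendsto (fun p : ℝ × ℝ => cmpAngle p.1 p.2 (dist (γ p.1) (η p.2))) (𝓝[>] 0 ×ˢ 𝓝[>] 0) (𝓝 α)

/-- every two points are joined by a shortest path -/
def IsGeodesicSpace (M : Type) [MetricSpace M] : Prop :=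
  ∀ p q : M, ∃ γ : ℝ → M, γ 0 = p ∧ γ (dist p q) = q ∧ IsShortest γ (dist p q)

/-- `M` is `CBB(0)`: complete, geodesic; every angle of a geodesic triangle exists and is at least
the corresponding angle of the Euclidean triangle with the same side lengths; adjacent angles add up
to `π`. -/
def IsCBBZero (M : Type) [MetricSpace M] : Prop :=
  CompleteSpace M ∧ IsGeodesicSpace M ∧
  (∀ (γ η : ℝ → M) (a b : ℝ), 0 < a → 0 < b → IsShortest γ a → IsShortest η b → γ 0 = η 0 →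
    ∃ α, HasAngle γ η α ∧ cmpAngle a b (dist (γ a) (η b)) ≤ α) ∧
  ∀ (γ η : ℝ → M) (a b t : ℝ), 0 < t → t < a → 0 < b → IsShortest γ a → IsShortest η b →
    η 0 = γ t → ∀ α β : ℝ, HasAngle (fun s => γ (t + s)) η α → HasAngle (fun s => γ (t - s)) η β →
    α + β = Real.pi

/-- `D` is a closed topological disk: closed, its boundary is a Jordan curve, its interior is
homeomorphic to an open disk. -/
def IsClosedDisk (D : Set M) : Prop :=
  IsClosed D ∧ Nonempty (frontier D ≃ₜ Metric.sphere (0 : ℂ) 1) ∧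
    Nonempty (interior D ≃ₜ Metric.ball (0 : ℂ) 1)

/-- All shortest paths between points of `D` lie in `D`. -/
def IsConvexSet (D : Set M) : Prop :=
  ∀ (γ : ℝ → M) (a : ℝ), 0 ≤ a → IsShortest γ a → γ 0 ∈ D → γ a ∈ D → ∀ t ∈ Icc 0 a, γ t ∈ D

/-- `g` is the arc length parametrisation of the boundary of `D`, a closed curve of length `L`. -/
def IsBoundaryParam (D : Set M) (g : ℝ → M) (L : ℝ) : Prop :=
  0 < L ∧ Continuous g ∧ Function.Periodic g L ∧ InjOn g (Ico 0 L) ∧ range g = frontier D ∧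
    ∀ s t, s ≤ t → eVariationOn g (Icc s t) = ENNReal.ofReal (t - s)

/-- `α` is an angle at `q` between shortest paths from `q` to `p` and from `q` to `r`. -/
def HasAngleAt (p q r : M) (α : ℝ) : Prop :=
  ∃ γ η : ℝ → M, γ 0 = q ∧ η 0 = q ∧ γ (dist q p) = p ∧ η (dist q r) = r ∧
    IsShortest γ (dist q p) ∧ IsShortest η (dist q r) ∧ HasAngle γ η α

/-- The swerve of the arc `g|[s,t]` is `φ`: the sum of `π - α_i` over the inner vertices of an
inscribed broken geodesic with the same end points converges to `φ` as the mesh tends to `0`. -/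
def HasSwerve (g : ℝ → M) (s t φ : ℝ) : Prop :=
  ∀ ε > 0, ∃ δ > 0, ∀ (N : ℕ) (τ α : ℕ → ℝ), τ 0 = s → τ (N + 1) = t →
    (∀ i ≤ N, τ i < τ (i + 1) ∧ τ (i + 1) - τ i < δ) →
    (∀ i < N, HasAngleAt (g (τ i)) (g (τ (i + 1))) (g (τ (i + 2))) (α i)) →
    |∑ i ∈ Finset.range N, (Real.pi - α i) - φ| < ε

/-- `D` is a `lam`-convex closed topological disk of perimeter `L`: a convex closed disk such that
every arc of its boundary has a swerve, which is at least `lam` times the length of the arc. -/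
def IsLambdaConvexDisk (lam : ℝ) (D : Set M) (L : ℝ) : Prop :=
  IsClosedDisk D ∧ IsConvexSet D ∧ ∃ g : ℝ → M, IsBoundaryParam D g L ∧
    ∀ s t, s < t → t ≤ s + L → ∃ φ, HasSwerve g s t φ ∧ lam * (t - s) ≤ φ

/-- the circumscribed radius `min_{p ∈ D} max_{q ∈ ∂D} |pq|` -/
noncomputable def circumradius (D : Set M) : ℝ := ⨅ p : D, ⨆ q : frontier D, dist (p : M) q

end

/-- The `lam`-convex lune of perimeter `L` in the Euclidean plane: the intersection of two disks of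
radius `1/lam`, placed so that each of the two boundary arcs has central angle `lam * L / 2`, that is
length `L/2`. -/
noncomputable def lune (lam L : ℝ) : Set ℂ :=
  Metric.closedBall ((Real.cos (lam * L / 4) / lam : ℝ) : ℂ) (1 / lam) ∩
    Metric.closedBall (-((Real.cos (lam * L / 4) / lam : ℝ) : ℂ)) (1 / lam)

lemma lune_eq : lune 1 Real.pi = Metric.closedBall ((√2 / 2 : ℝ) : ℂ) 1 ∩
    Metric.closedBall (-((√2 / 2 : ℝ) : ℂ)) 1 := by
  rw [lune, one_mul, Real.cos_pi_div_four, div_one, div_one]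

lemma sqrt_sq : (√2 / 2) ^ 2 = (1 : ℝ) / 2 := by
  rw [div_pow, Real.sq_sqrt (by norm_num)]; norm_num

lemma lune_norm {z : ℂ} (hz : z ∈ lune 1 Real.pi) : ‖z‖ ≤ √2 / 2 := by
  rw [lune_eq] at hz
  obtain ⟨h1, h2⟩ := hz
  rw [Metric.mem_closedBall, dist_eq_norm] at h1 h2
  have h3 := parallelogram_law_with_norm ℝ z ((√2 / 2 : ℝ) : ℂ)
  rw [sub_neg_eq_add] at h2
  have h4 : ‖((√2 / 2 : ℝ) : ℂ)‖ = √2 / 2 := by
    rw [Complex.norm_real, Real.norm_eq_abs, abs_of_nonneg (by positivity)]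
  rw [h4] at h3
  have h5 := sqrt_sq
  refine le_of_sq_le_sq ?_ (by positivity)
  nlinarith [norm_nonneg (z - ((√2 / 2 : ℝ) : ℂ)), norm_nonneg (z + ((√2 / 2 : ℝ) : ℂ))]

lemma tip_norm (e : ℝ) (he : e ^ 2 = 1) (c : ℝ) (hc : c ^ 2 = 1 / 2) (r : ℝ) :
    ‖(⟨c, e * r⟩ : ℂ)‖ ^ 2 = 1 / 2 + r ^ 2 := by
  rw [← Complex.normSq_eq_norm_sq, Complex.normSq_apply]
  simp only
  nlinarith

lemma tip_dist1 (e : ℝ) (he : e ^ 2 = 1) (r : ℝ) :
    dist (⟨0, e * r⟩ : ℂ) ((√2 / 2 : ℝ) : ℂ) ^ 2 = 1 / 2 + r ^ 2 := by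
  rw [dist_eq_norm]
  have : (⟨0, e * r⟩ : ℂ) - ((√2 / 2 : ℝ) : ℂ) = ⟨-(√2 / 2), e * r⟩ := by
    apply Complex.ext <;> simp
  rw [this]
  exact tip_norm e he _ (by rw [neg_sq, sqrt_sq]) r

lemma tip_dist2 (e : ℝ) (he : e ^ 2 = 1) (r : ℝ) :
    dist (⟨0, e * r⟩ : ℂ) (-((√2 / 2 : ℝ) : ℂ)) ^ 2 = 1 / 2 + r ^ 2 := by
  rw [dist_eq_norm]
  have : (⟨0, e * r⟩ : ℂ) - (-((√2 / 2 : ℝ) : ℂ)) = ⟨√2 / 2, e * r⟩ := by
    apply Complex.ext <;> simp
  rw [this]
  exact tip_norm e he _ sqrt_sq r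

lemma tip_frontier (e : ℝ) (he : e ^ 2 = 1) :
    (⟨0, e * (√2 / 2)⟩ : ℂ) ∈ frontier (lune 1 Real.pi) := by
  have hs := sqrt_sq
  have hmem : ∀ r : ℝ, r ^ 2 ≤ 1 / 2 → (⟨0, e * r⟩ : ℂ) ∈ lune 1 Real.pi := by
    intro r hr
    rw [lune_eq]
    constructor
    · rw [Metric.mem_closedBall]
      refine le_of_sq_le_sq ?_ zero_le_one
      rw [tip_dist1 e he]; linarith
    · rw [Metric.mem_closedBall]
      refine le_of_sq_le_sq ?_ zero_le_one
      rw [tip_dist2 e he]; linarith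
  rw [frontier, Set.mem_sdiff]
  refine ⟨subset_closure (hmem _ hs.le), fun hint => ?_⟩
  have hcont : Continuous fun r : ℝ => (⟨0, e * r⟩ : ℂ) := by
    have : (fun r : ℝ => (⟨0, e * r⟩ : ℂ)) = fun r : ℝ => ((e * r : ℝ) : ℂ) * Complex.I := by
      funext r; apply Complex.ext <;> simp
    rw [this]; fun_prop
  have h1 : (fun r : ℝ => (⟨0, e * r⟩ : ℂ)) ⁻¹' interior (lune 1 Real.pi) ∈ 𝓝 (√2 / 2) :=
    (isOpen_interior.preimage hcont).mem_nhds hint
  have h2 : ∀ᶠ r in 𝓝[>] (√2 / 2), (⟨0, e * r⟩ : ℂ) ∈ interior (lune 1 Real.pi) :=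
    mem_nhdsWithin_of_mem_nhds h1
  obtain ⟨r, hr1, hr2⟩ := (h2.and self_mem_nhdsWithin).exists
  have h3 := interior_subset hr1
  rw [lune_eq] at h3
  have h4 := h3.1
  rw [Metric.mem_closedBall] at h4
  have h5 := tip_dist1 e he r
  have h6 : dist (⟨0, e * r⟩ : ℂ) ((√2 / 2 : ℝ) : ℂ) ^ 2 ≤ 1 := by
    have := dist_nonneg (x := (⟨0, e * r⟩ : ℂ)) (y := ((√2 / 2 : ℝ) : ℂ))
    nlinarith
  have h7 : √2 / 2 < r := hr2
  have h8 : 0 ≤ √2 / 2 := by positivity
  nlinarith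

lemma lune_circumradius : circumradius (lune 1 Real.pi) = √2 / 2 := by
  have f1 := tip_frontier 1 (by norm_num)
  have f2 := tip_frontier (-1) (by norm_num)
  have hclosed : IsClosed (lune 1 Real.pi) :=
    Metric.isClosed_closedBall.inter Metric.isClosed_closedBall
  have hsub : frontier (lune 1 Real.pi) ⊆ lune 1 Real.pi := hclosed.frontier_subset
  have h0 : (0 : ℂ) ∈ lune 1 Real.pi := by
    rw [lune_eq]
    have h1 : √2 / 2 ≤ 1 := by nlinarith [sqrt_sq, Real.sqrt_nonneg 2]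
    constructor
    · rw [Metric.mem_closedBall, dist_eq_norm, zero_sub, norm_neg, Complex.norm_real,
        Real.norm_eq_abs, abs_of_nonneg (by positivity)]; exact h1
    · rw [Metric.mem_closedBall, dist_eq_norm, zero_sub, norm_neg, norm_neg, Complex.norm_real,
        Real.norm_eq_abs, abs_of_nonneg (by positivity)]; exact h1
  have : Nonempty (frontier (lune 1 Real.pi)) := ⟨⟨_, f1⟩⟩
  have : Nonempty (lune 1 Real.pi) := ⟨⟨_, h0⟩⟩
  rw [circumradius]
  apply le_antisymm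
  · refine ciInf_le_of_le ⟨0, ?_⟩ ⟨0, h0⟩ ?_
    · rintro _ ⟨p, rfl⟩
      exact Real.iSup_nonneg fun _ => dist_nonneg
    · refine ciSup_le fun q => ?_
      rw [dist_eq_norm]
      simp only [zero_sub, norm_neg]
      exact lune_norm (hsub q.2)
  · refine le_ciInf fun p => ?_
    have bdd : BddAbove (range fun q : frontier (lune 1 Real.pi) => dist (p : ℂ) q) := by
      refine ⟨√2, ?_⟩
      rintro _ ⟨q, rfl⟩
      simp only
      rw [dist_eq_norm]
      have h1 := lune_norm p.2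
      have h2 := lune_norm (hsub q.2)
      have := norm_sub_le (p : ℂ) q
      linarith
    have h1 := le_ciSup bdd ⟨_, f1⟩
    have h2 := le_ciSup bdd ⟨_, f2⟩
    simp only at h1 h2
    have h3 : √2 ≤ dist (p : ℂ) (⟨0, 1 * (√2 / 2)⟩ : ℂ) + dist (p : ℂ) (⟨0, -1 * (√2 / 2)⟩ : ℂ) := by
      have h4 := dist_triangle_left (⟨0, 1 * (√2 / 2)⟩ : ℂ) (⟨0, -1 * (√2 / 2)⟩ : ℂ) (p : ℂ)
      refine le_trans (le_of_eq ?_) h4
      rw [dist_eq_norm]
      have : (⟨0, 1 * (√2 / 2)⟩ : ℂ) - (⟨0, -1 * (√2 / 2)⟩ : ℂ) = ((√2 : ℝ) : ℂ) * Complex.I := by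
        apply Complex.ext
        · simp
        · simp only [Complex.sub_im, Complex.mul_im, Complex.ofReal_re, Complex.I_im,
            Complex.ofReal_im, Complex.I_re]
          ring
      rw [this, norm_mul, Complex.norm_I, mul_one, Complex.norm_real, Real.norm_eq_abs,
        abs_of_nonneg (by positivity)]
    linarith

/-- Negative answer to Q1 (`κ = 0`, `λ = 1`, `L = π`): there are a `CBB(0)` space `M` homeomorphic to
the plane and a `1`-convex closed topological disk `D` in `M` of perimeter `π` whose circumscribed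
radius is `1`, while the circumscribed radius of the `1`-convex lune of perimeter `π` in the
Euclidean plane is `√2 / 2 < 1`. -/
theorem result : ∃ (M : Type) (_ : MetricSpace M), IsCBBZero M ∧ Nonempty (M ≃ₜ ℂ) ∧
    ∃ D : Set M, IsLambdaConvexDisk 1 D Real.pi ∧ circumradius D = 1 ∧
      circumradius (lune 1 Real.pi) = √2 / 2 := by
  refine ⟨Pool.Agent.X187.CN.Cone, inferInstance, ⟨inferInstance, ?_, ?_, ?_⟩,
    ⟨Pool.Agent.X187.CN.hom⟩, Pool.Agent.X187.CN.D, ⟨Pool.Agent.X187.CN.disk_top, ?_,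
      Pool.Agent.X187.CN.g, ?_, ?_⟩, Pool.Agent.X187.CN.circum, lune_circumradius⟩
  · exact Pool.Agent.X187.CN.exists_short
  · intro γ η a b ha hb hγ hη h0
    exact Pool.Agent.X187.CN.angle_cmp ha hb hγ hη h0
  · intro γ η a b t ht hta hb hγ hη h0 α β hα hβ
    exact Pool.Agent.X187.CN.adj ht hta hb hγ hη h0 hα hβ
  · intro γ a ha hγ h0 h1 t ht
    exact Pool.Agent.X187.CN.convex_D ha hγ h0 h1 ht
  · exact ⟨Real.pi_pos, Pool.Agent.X187.CN.g_cont, Pool.Agent.X187.CN.g_period,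
      Pool.Agent.X187.CN.g_inj, Pool.Agent.X187.CN.g_range,
      fun s t hst => Pool.Agent.X187.CN.var_eq hst⟩
  · intro s t _ _
    refine ⟨t - s, fun ε hε => ?_, by rw [one_mul]⟩
    exact Pool.Agent.X187.CN.swerve hε

end Pool.Agent.Results.MP_4b815d_gt.ConeDisk
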